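import Pool.Agent.H152R2.PlanarRel
import Pool.Agent.Results.MP_104832_co.OddProduct
import Pool.Agent.Y786.PD.Dio

/-!
# Planar abelian difference sets of order `m (m + 2)`: the complete classification

A finite abelian group with a planar difference set of order `m (m + 2)`, `m ≥ 1`, exists if and
only if `m = 1` (order `3`) or `m = 2` (order `8`).
-/

set_option autoImplicit false

namespace Pool.Agent.Results.MP_104832_co.AllOrders

open Pool.Agent.H152R2 Finset

/-- `D` is a planar difference set of order `n` in the additive abelian group `G`: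
`G` is finite with `n ^ 2 + n + 1` elements, `D` has `n + 1` elements and every non-zero element of
`G` is in exactly one way a difference of two elements of `D`. -/
def IsPlanarDifferenceSet (G : Type*) [AddCommGroup G] (n : ℕ) (D : Finset G) : Prop :=
  Nat.card G = n ^ 2 + n + 1 ∧ D.card = n + 1 ∧
    ∀ g : G, g ≠ 0 → ∃! q : G × G, q.1 ∈ D ∧ q.2 ∈ D ∧ q.1 - q.2 = g

/-- In order `m (m + 2)` with `m` even every element is killed by `m - 2`. -/
lemma killed {G : Type*} [AddCommGroup G] {n m : ℕ} {D : Finset G} (h : IsPDS n D)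
    (hcop2 : Nat.Coprime 2 (n ^ 2 + n + 1)) (hm : 2 ≤ m) (h2 : ∀ x ∈ D, 2 • x ∈ D)
    (hm1 : ∀ x ∈ D, m • x ∈ D) (hm2 : ∀ x ∈ D, (m + 2) • x ∈ D) (g : G) : (m - 2) • g = 0 := by
  have hD : ∀ x ∈ D, (m - 2) • x = 0 := by
    intro x hx
    by_cases hx0 : x = 0
    · rw [hx0, smul_zero]
    · have h3 : 2 • x ≠ 0 := fun h3 => hx0 (h.smul_inj_of_coprime hcop2 h3)
      have h4 : (2 • (2 • x) : G) - 2 • x = 2 • x := by
        rw [two_smul ℕ (2 • x)]; abel
      have h5 : (m + 2) • x - m • x = 2 • x := by rw [add_smul]; abel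
      have h6 : (2 • (2 • x) : G) ≠ 2 • x := by
        intro h7; apply h3; rw [← h4, h7, sub_self]
      have h8 := h.uniq (h2 _ (h2 x hx)) (h2 x hx) (hm2 x hx) (hm1 x hx) (h4.trans h5.symm) h6
      have h9 : m = (m - 2) + 2 := by omega
      have h10 : 2 • x = (m - 2) • x + 2 • x := by
        rw [← add_smul, ← h9]; exact h8.2
      exact left_eq_add.mp (h10.trans (add_comm _ _)) |> fun h => h
  by_cases hg : g = 0
  · rw [hg, smul_zero]
  · obtain ⟨q, ⟨h1, h2, hq⟩, _⟩ := h.diff g hg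
    rw [← hq, smul_sub, hD _ h1, hD _ h2, sub_self]

lemma main_even {G : Type*} [AddCommGroup G] (m : ℕ) (hm : Even m) (h4 : 4 ≤ m) (D : Finset G) :
    ¬ IsPDS (m * (m + 2)) D := by
  classical
  intro hD
  obtain ⟨D', h, h0⟩ := hD.exists_normalised
  obtain ⟨j, hj⟩ := hm
  have h8 : 8 ∣ m * (m + 2) := by
    have e : m * (m + 2) = 4 * (j * (j + 1)) := by rw [hj]; ring
    obtain ⟨c, hc⟩ := Nat.even_mul_succ_self j
    exact ⟨c, by rw [e, hc]; ring⟩
  set n := m * (m + 2) with hn
  have hnpos : 24 ≤ n := by rw [hn]; nlinarith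
  have h2n : 2 ∣ n := (by norm_num : 2 ∣ 8).trans h8
  have hcop2 : Nat.Coprime 2 (n ^ 2 + n + 1) := Nat.Coprime.coprime_dvd_left h2n
    (IsPDS.coprime_card' n)
  have hs1 : ∀ x ∈ D', m • x ∈ D' := fun x hx =>
    h.smul_mem h0 (by omega) (by omega) (fun r _ hr => by rw [hn]; exact hr.mul_right _) hx
  have hs2 : ∀ x ∈ D', (m + 2) • x ∈ D' := fun x hx =>
    h.smul_mem h0 (by omega) (by omega) (fun r _ hr => by rw [hn]; exact hr.mul_left _) hx
  have hD2 : ∀ x ∈ D', 2 • x ∈ D' := fun x hx =>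
    h.prime_smul_mem h0 (by omega) Nat.prime_two h2n hx
  have hkill := killed h hcop2 (by omega) hD2 hs1 hs2
  have := h.finite
  have := Fintype.ofFinite G
  have hv : Fintype.card G = n ^ 2 + n + 1 := by rw [← Nat.card_eq_fintype_card, h.card_group]
  have hprime : ∀ q : ℕ, q.Prime → q ∣ n ^ 2 + n + 1 → q = 73 := by
    intro q hq hqv
    have := Fact.mk hq
    obtain ⟨g, hg⟩ := exists_prime_addOrderOf_dvd_card q (by rw [hv]; exact hqv)
    have h1 : q ∣ m - 2 := by
      rw [← hg]; exact addOrderOf_dvd_of_nsmul_eq_zero (hkill g)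
    have h2 : n ^ 2 + n + 1 = (m - 2) * ((m + 4) * (n + 9)) + 73 := by
      obtain ⟨k, rfl⟩ : ∃ k, m = k + 2 := ⟨m - 2, by omega⟩
      rw [hn]
      simp only [Nat.add_sub_cancel]
      ring
    have h4 : q ∣ 73 := by
      rw [h2] at hqv
      exact (Nat.dvd_add_right (h1.mul_right _)).1 hqv
    exact (Nat.prime_dvd_prime_iff_eq hq (by norm_num)).1 h4
  have hpow := Nat.eq_prime_pow_of_unique_prime_dvd (by positivity) (fun {d} hd hdv => hprime d hd hdv)
  generalize (n ^ 2 + n + 1).primeFactorsList.length = k at hpow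
  have hk2 : k % 2 = 1 := by
    by_contra hcon
    obtain ⟨j, rfl⟩ : ∃ j, k = j + j := ⟨k / 2, by omega⟩
    have h1 : n ^ 2 + n + 1 = 73 ^ j * 73 ^ j := by rw [hpow, pow_add]
    generalize 73 ^ j = y at h1
    have h2 : n < y := by nlinarith
    have h4 : y < n + 1 := by nlinarith
    omega
  have hk1 := Pool.Agent.Y786.PD.dio hpow h8 hk2
  rw [hk1] at hpow
  nlinarith

lemma of_card {G : Type*} [AddCommGroup G] [DecidableEq G] (D : Finset G)
    (h : ∀ g : G, g ≠ 0 → ((D ×ˢ D).filter (fun q => q.1 - q.2 = g)).card = 1) (g : G)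
    (hg : g ≠ 0) : ∃! q : G × G, q.1 ∈ D ∧ q.2 ∈ D ∧ q.1 - q.2 = g := by
  obtain ⟨q, hq⟩ := Finset.card_eq_one.mp (h g hg)
  have h1 : q ∈ (D ×ˢ D).filter (fun q => q.1 - q.2 = g) := by rw [hq]; simp
  rw [Finset.mem_filter, Finset.mem_product] at h1
  refine ⟨q, ⟨h1.1.1, h1.1.2, h1.2⟩, ?_⟩
  rintro q' ⟨h2, h3, h4⟩
  have h5 : q' ∈ (D ×ˢ D).filter (fun q => q.1 - q.2 = g) := by
    rw [Finset.mem_filter, Finset.mem_product]
    exact ⟨⟨h2, h3⟩, h4⟩
  rw [hq] at h5
  exact Finset.mem_singleton.mp h5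

/-- **Complete classification.** For `m ≥ 1` there is a finite abelian group with a planar
difference set of order `m (m + 2)` if and only if `m = 1` or `m = 2`. In particular (the question)
there is none for any odd prime `m = p`. -/
theorem result (m : ℕ) (hm : 1 ≤ m) :
    (∃ (G : Type) (_ : AddCommGroup G) (D : Finset G), IsPlanarDifferenceSet G (m * (m + 2)) D) ↔
      (m = 1 ∨ m = 2) := by
  constructor
  · rintro ⟨G, _, D, h1, h2, h3⟩
    by_contra hcon
    push Not at hcon
    rcases Nat.even_or_odd m with he | ho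
    · have h4 : 4 ≤ m := by
        obtain ⟨j, hj⟩ := he
        omega
      exact main_even m he h4 D ⟨h1, h2, h3⟩
    · have h4 : 3 ≤ m := by
        obtain ⟨j, hj⟩ := ho
        omega
      exact OddProduct.main m ho h4 D ⟨h1, h2, h3⟩
  · rintro (rfl | rfl)
    · refine ⟨ZMod 13, inferInstance, {0, 1, 3, 9}, ?_, ?_, ?_⟩
      · rw [Nat.card_zmod]; norm_num
      · decide
      · exact of_card _ (by decide +kernel)
    · refine ⟨ZMod 73, inferInstance, {1, 2, 4, 8, 16, 32, 37, 55, 64}, ?_, ?_, ?_⟩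
      · rw [Nat.card_zmod]; norm_num
      · decide +kernel
      · exact of_card _ (by decide +kernel)

end Pool.Agent.Results.MP_104832_co.AllOrders
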